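import Pool.Agent.Helper16.GS.Init
import Pool.Agent.Helper61.FIN.TwinX

/-!
# FIN: constants such that everything is of transcendence degree one
-/

set_option autoImplicit false

namespace Pool.Agent.FIN

open Pool.Agent.GS AlgebraicIndependent

universe u

/-- Enlarge the field of constants such that the transcendence degree is one. -/
theorem one_dim {F Ω : Type u} [Field F] [Field Ω] [Algebra F Ω] (z : Ω) (hz : Transcendental F z) :
    ∃ (F' κ : Type u) (_ : Field F') (_ : Field κ) (_ : Algebra F F') (_ : Algebra F' κ) (_ : Algebra Ω κ)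
      (_ : Algebra F κ) (_ : IsScalarTower F F' κ) (_ : IsScalarTower F Ω κ), IsAlgClosed F' ∧
      rk F' (Set.univ : Set κ) ≤ 1 ∧ ¬ Cst F' (algebraMap Ω κ z) := by
  classical
  have hz1 : (matroid F Ω).Indep {z} := by
    rw [matroid_indep_iff]
    exact (algebraicIndependent_unique_type_iff (R := F) (x := fun x : ({z} : Set Ω) => (x : Ω))).2 (by simpa using hz)
  obtain ⟨B, hB, hzB⟩ := hz1.exists_isBase_superset
  have hzB : z ∈ B := hzB rfl
  have hBi : AlgebraicIndependent F ((↑) : B → Ω) := by
    have := hB.indep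
    rwa [matroid_indep_iff] at this
  set B₀ : Set Ω := B \ {z} with hB₀
  have hsum : AlgebraicIndependent F (Sum.elim (fun _ : Unit => z) ((↑) : B₀ → Ω)) := by
    let f : Unit ⊕ B₀ → B := Sum.elim (fun _ => ⟨z, hzB⟩) (fun b => ⟨b.1, b.2.1⟩)
    have hf : Function.Injective f := by
      rintro (i | b) (j | c) h
      · rfl
      · exact absurd (congrArg Subtype.val h :).symm c.2.2
      · exact absurd (congrArg Subtype.val h :) b.2.2
      · exact congrArg _ (Subtype.ext (congrArg Subtype.val h :))
    have h1 := hBi.comp f hf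
    convert h1 using 1
    funext i
    rcases i with i | b <;> rfl
  set K := IntermediateField.adjoin F B₀ with hK
  have hzK : AlgebraicIndependent K (fun _ : Unit => z) := by
    rw [IntermediateField.algebraicIndependent_adjoin_iff]
    have h1 := (sumElim_iff.1 hsum).2
    rwa [Subtype.range_coe] at h1
  let κ := AlgebraicClosure Ω
  have hzK' : AlgebraicIndependent K fun _ : Unit => algebraMap Ω κ z :=
    hzK.map' (f := IsScalarTower.toAlgHom K Ω κ) (algebraMap Ω κ).injective
  have hzF := hzK'.algebraicClosure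
  have hT : IsScalarTower F (algebraicClosure K κ) κ := IsScalarTower.of_algebraMap_eq fun x => rfl
  refine ⟨algebraicClosure K κ, κ, inferInstance, inferInstance, inferInstance, inferInstance, inferInstance,
    inferInstance, hT, inferInstance, (algebraicClosure.isAlgClosure K κ).isAlgClosed, ?_, ?_⟩
  · set F' := algebraicClosure K κ with hF'
    obtain ⟨C, hC, hroot⟩ := aclk61 (k := F') ({algebraMap Ω κ z} : Set κ)
    have hF : ∀ a : F, algebraMap Ω κ (algebraMap F Ω a) ∈ C := by
      intro a
      have h1 : algebraMap Ω κ (algebraMap F Ω a) = algebraMap F' κ (algebraMap F F' a) := by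
        rw [← IsScalarTower.algebraMap_apply F Ω κ, ← IsScalarTower.algebraMap_apply F F' κ]
      have h2 := cl_cst (k := F') ({algebraMap Ω κ z} : Set κ) (algebraMap F F' a)
      rw [← hC] at h2
      rw [h1]
      exact h2
    have hBC : ∀ b ∈ B, algebraMap Ω κ b ∈ C := by
      intro b hb
      by_cases hbz : b = z
      · rw [hbz]
        have h2 := subset_cl (k := F') ({algebraMap Ω κ z} : Set κ) rfl
        rw [← hC] at h2
        exact h2
      · have h1 : b ∈ K := IntermediateField.subset_adjoin F B₀ ⟨hb, hbz⟩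
        have h2 := cl_cst (k := F') ({algebraMap Ω κ z} : Set κ) (algebraMap K F' ⟨b, h1⟩)
        rw [← hC] at h2
        exact h2
    have hAC : ∀ a : Algebra.adjoin F B, algebraMap Ω κ (a : Ω) ∈ C := by
      rintro ⟨a, ha⟩
      induction ha using Algebra.adjoin_induction with
      | mem x hx => exact hBC x hx
      | algebraMap x => exact hF x
      | add x y _ _ hx hy =>
        show algebraMap Ω κ (x + y) ∈ C
        rw [map_add]
        exact C.add_mem hx hy
      | mul x y _ _ hx hy =>
        show algebraMap Ω κ (x * y) ∈ C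
        rw [map_mul]
        exact C.mul_mem hx hy
    have hΩC : ∀ x : Ω, algebraMap Ω κ x ∈ C := by
      intro x
      have h1 : x ∈ cl F B := by
        unfold cl
        rw [hB.closure_eq]
        exact Set.mem_univ x
      rw [mem_cl] at h1
      obtain ⟨p, hp0, hp⟩ := h1
      let φ : Algebra.adjoin F B →+* κ := (algebraMap Ω κ).comp (Algebra.adjoin F B).val.toRingHom
      have hφ : Function.Injective φ := (algebraMap Ω κ).injective.comp Subtype.val_injective
      refine hroot (p.map φ) ((Polynomial.map_ne_zero_iff hφ).2 hp0) (fun i => ?_) _ ?_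
      · rw [Polynomial.coeff_map]
        exact hAC _
      · rw [Polynomial.eval_map, ← Polynomial.hom_eval₂]
        have h2 : Polynomial.eval₂ (Algebra.adjoin F B).val.toRingHom x p = 0 := hp
        rw [h2, map_zero]
    have hall : ∀ x : κ, x ∈ C := by
      intro x
      have h1 : IsAlgebraic Ω x := Algebra.IsAlgebraic.isAlgebraic x
      obtain ⟨p, hp0, hp⟩ := h1
      refine hroot (p.map (algebraMap Ω κ)) ((Polynomial.map_ne_zero_iff (algebraMap Ω κ).injective).2 hp0)
        (fun i => ?_) x ?_
      · rw [Polynomial.coeff_map]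
        exact hΩC _
      · rw [Polynomial.eval_map]
        exact hp
    have h1 : (Set.univ : Set κ) ⊆ cl F' ({algebraMap Ω κ z} : Set κ) := by
      intro x _
      rw [← hC]
      exact hall x
    refine (rk_le_of_subset h1).trans ?_
    refine (rk_le_card _).trans ?_
    rw [Set.encard_singleton]
  · rintro ⟨a, ha⟩
    have h1 := (algebraicIndependent_unique_type_iff (R := algebraicClosure K κ) (ι := Unit)).1 hzF
    exact h1 (ha ▸ isAlgebraic_algebraMap a)

/-- The constants for the core. -/
theorem init1 {k Ω₀ : Type u} [Field k] [Field Ω₀] [Algebra k Ω₀] (D : SL.Dat k Ω₀) {N q r : ℕ}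
    (ℓ : Fin q → Fin (N + 1) → k) (s0 : Fin r) (y : Fin r → Fin (N + 1) → Ω₀)
    (hu : ∀ i j, D.U (uu ℓ y i / uu ℓ y j)) (hgen : (1 : ℕ∞) ≤ rk k (Rat (y s0))) :
    ∃ (F κ : Type u) (_ : Field F) (_ : Field κ) (_ : Algebra k F) (_ : Algebra F κ) (_ : Algebra Ω₀ κ)
      (_ : Algebra k κ) (_ : IsScalarTower k F κ) (_ : IsScalarTower k Ω₀ κ), IsAlgClosed F ∧
      rk F (Set.univ : Set κ) ≤ 1 ∧
      (∃ a b, ¬ Cst F (algebraMap Ω₀ κ (y s0 a) / algebraMap Ω₀ κ (y s0 b))) ∧
      Rk F (fun i => algebraMap Ω₀ κ (uu ℓ y i)) 1 := by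
  classical
  obtain ⟨F, Ω, _, _, _, _, _, _, hT1, hT2, hF, hgen', hrank⟩ := init (n := 1) D ℓ s0 y hu (by simpa using hgen)
  obtain ⟨z, ⟨a, b, hab⟩, hz⟩ : ∃ z ∈ Rat fun j => algebraMap Ω₀ Ω (y s0 j), Transcendental F z := by
    by_contra hcon
    push Not at hcon
    have h1 : (Rat fun j => algebraMap Ω₀ Ω (y s0 j)) ⊆ cl F (∅ : Set Ω) := by
      intro z hz
      rw [mem_cl]
      have h2 : IsAlgebraic F z := by
        by_contra h3
        exact hcon z hz h3
      exact h2.extendScalars (algebraMap F (Algebra.adjoin F (∅ : Set Ω))).injective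
    have h2 := rk_le_of_subset h1
    have h3 : rk F (∅ : Set Ω) ≤ 0 := (rk_le_card _).trans (by simp)
    have h4 := (hgen'.trans h2).trans h3
    simp at h4
  obtain ⟨F', κ, _, _, _, _, _, _, hT3, hT4, hF', hrk, hzc⟩ := one_dim z hz
  let alg1 : Algebra k F' := ((algebraMap F F').comp (algebraMap k F)).toAlgebra
  let alg2 : Algebra Ω₀ κ := ((algebraMap Ω κ).comp (algebraMap Ω₀ Ω)).toAlgebra
  let alg3 : Algebra k κ := ((algebraMap F' κ).comp (algebraMap k F')).toAlgebra
  have t1 : IsScalarTower k F' κ := IsScalarTower.of_algebraMap_eq fun x => rfl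
  have t2 : IsScalarTower k Ω₀ κ := by
    refine IsScalarTower.of_algebraMap_eq fun x => ?_
    show algebraMap F' κ (algebraMap F F' (algebraMap k F x)) = algebraMap Ω κ (algebraMap Ω₀ Ω (algebraMap k Ω₀ x))
    rw [← IsScalarTower.algebraMap_apply F F' κ, ← IsScalarTower.algebraMap_apply k Ω₀ Ω,
      IsScalarTower.algebraMap_apply k F Ω, ← IsScalarTower.algebraMap_apply F Ω κ]
  refine ⟨F', κ, inferInstance, inferInstance, alg1, inferInstance, alg2, alg3, t1, t2, hF', hrk, ⟨a, b, ?_⟩, ?_⟩
  · have h1 : algebraMap Ω₀ κ (y s0 a) / algebraMap Ω₀ κ (y s0 b) = algebraMap Ω κ z := by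
      rw [hab, map_div₀]
      rfl
    rw [h1]
    exact hzc
  · intro e he hu0
    obtain ⟨c, hc, d, hd⟩ := hrank e he (by
      intro b i h
      refine hu0 b i ?_
      show algebraMap Ω κ (algebraMap Ω₀ Ω (uu ℓ y i)) = 0
      have h' : algebraMap Ω₀ Ω (uu ℓ y i) = 0 := h
      rw [h', map_zero])
    refine ⟨c, hc, algebraMap F F' d, ?_⟩
    rw [← IsScalarTower.algebraMap_apply F F' κ, IsScalarTower.algebraMap_apply F Ω κ, ← hd, map_prod]
    exact Finset.prod_congr rfl fun i _ => (map_zpow₀ (algebraMap Ω κ) _ _).symm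

end Pool.Agent.FIN
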