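import Pool.Agent.Helper64.FIN.Ok
import Pool.Agent.Helper64.FIN.Init1
import Pool.Agent.Helper77.AU.Glue

/-!
# FIN: assembly

`main_of`: the theorem, from the algebraic core `Core` for the degrees `1, …, r`.
-/

set_option autoImplicit false

namespace Pool.Agent.FIN

open NumberField IntermediateField Pool.Agent.Helper64.Vojta Pool.Agent.GS MvPolynomial Filter
open Pool.Agent.Helper77.AU

universe u

/-- The statement of the algebraic core. -/
def Core (N n q d : ℕ) : Prop :=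
  ∀ (F κ : Type u) [Field F] [IsAlgClosed F] [Field κ] [Algebra F κ], rk F (Set.univ : Set κ) ≤ 1 →
    ∀ (I : Set (MvPolynomial (Fin (N + 1)) F)), Homog I → ∀ (ℓ : Fin q → Fin (N + 1) → F), OkX I n d ℓ →
    ∀ (s0 : Fin d) (y : Fin d → Fin (N + 1) → κ), (∀ σ, OnX I (y σ)) → (∀ i, uu ℓ y i ≠ 0) →
      (∃ a b, ¬ Cst F (y s0 a / y s0 b)) → ¬ Rk F (uu ℓ y) 1

/-- one degree -/
theorem main_deg {k₀ k : Type u} [Field k₀] [NumberField k₀] [Field k] [NumberField k] [Algebra k₀ k] {N n q : ℕ}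
    (hq0 : 0 < q) (d : ℕ) (hcore : Core.{u} N n q d) (I : Set (MvPolynomial (Fin (N + 1)) k₀)) (hI : Homog I)
    (ℓ : Fin q → Fin (N + 1) → k)
    (hok : ∀ (F : Type u) [Field F] [Algebra k F] [Algebra k₀ F] [IsScalarTower k₀ k F],
      OkX (ext F I) n d fun i j => algebraMap k F (ℓ i j))
    (S : Finset (Pl k)) :
    ∃ δ : ℝ, 0 < δ ∧ ∃ C : ℝ, ∀ y : Fin N → AlgebraicClosure k,
      (∀ f ∈ I, aeval (Fin.cons 1 y : Fin (N + 1) → AlgebraicClosure k) f = 0) → VZ.dg y = d →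
      (∀ i, ∑ j, algebraMap k (VZ.fld y) (ℓ i j) * VZ.crd y j ≠ 0) →
      VZ.lam ℓ S y ≤ (q - δ) * VZ.hgt y + C := by
  classical
  by_contra hcon
  push Not at hcon
  obtain ⟨U, t, ht, D, y, X, s0, c, hyI, hyd, hc, hX0, hXf, hXU, hrk⟩ :=
    glue S d ℓ ⟨0, hq0⟩ (fun y => ∀ f ∈ I, aeval (Fin.cons 1 y : Fin (N + 1) → AlgebraicClosure k) f = 0) (by
      intro δ C hδ
      obtain ⟨y, h1, h2, h3, h4⟩ := hcon δ hδ C
      exact ⟨y, h1, h2, h3, h4⟩)
  -- abbreviations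
  let K₁ := slowK (k := k) U t ht
  let ℓ₁ : Fin q → Fin (N + 1) → slowK (k := k) U t ht := fun i j => algebraMap k (slowK (k := k) U t ht) (ℓ i j)
  obtain ⟨F, κ, _, _, _, _, _, _, hT1, hT2, hF, htr, ⟨a, b, hab⟩, hrank⟩ := init1 D ℓ₁ s0 X
    (fun i j => (hXU i).div (hXU j)) hrk
  let algkF : Algebra k F := ((algebraMap K₁ F).comp (algebraMap k K₁)).toAlgebra
  let alg0F : Algebra k₀ F := ((algebraMap k F).comp (algebraMap k₀ k)).toAlgebra
  have towF : IsScalarTower k₀ k F := IsScalarTower.of_algebraMap_eq fun x => rfl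
  let alg0κ : Algebra k₀ κ := ((algebraMap F κ).comp (algebraMap k₀ F)).toAlgebra
  have towκ : IsScalarTower k₀ F κ := IsScalarTower.of_algebraMap_eq fun x => rfl
  have hmap : ∀ x : k, algebraMap F κ (algebraMap k F x) =
      algebraMap (SL.Om k U) κ (algebraMap k (SL.Om k U) x) := by
    intro x
    show algebraMap F κ (algebraMap K₁ F (algebraMap k K₁ x)) = _
    rw [← IsScalarTower.algebraMap_apply K₁ F κ, IsScalarTower.algebraMap_apply K₁ (SL.Om k U) κ,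
      ← IsScalarTower.algebraMap_apply k K₁ (SL.Om k U)]
  -- the points satisfy the equations
  have hXI : ∀ σ, OnX (ext F I) (fun j => algebraMap (SL.Om k U) κ (X σ j)) := by
    intro σ
    rw [onX_ext]
    intro f hf
    obtain ⟨e, he⟩ := hI f hf
    have h1 : aeval (X σ) (MvPolynomial.map (algebraMap k₀ k) f) = 0 := by
      refine hXf σ e _ (he.map _) (Eventually.of_forall fun m => ?_)
      rw [aeval_map_algebraMap]
      exact hyI m f hf
    have h2 : aeval (fun j => algebraMap (SL.Om k U) κ (X σ j)) f =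
        algebraMap (SL.Om k U) κ (aeval (X σ) (MvPolynomial.map (algebraMap k₀ k) f)) := by
      rw [aeval_def, aeval_def, eval₂_map, MvPolynomial.eval₂_comp_left]
      congr 1
      ext x
      exact hmap (algebraMap k₀ k x)
    rw [h2, h1, map_zero]
  have hu' : (uu (fun i j => algebraMap k F (ℓ i j)) fun σ j => algebraMap (SL.Om k U) κ (X σ j)) =
      fun i => algebraMap (SL.Om k U) κ (uu ℓ₁ X i) := by
    funext i
    unfold uu
    rw [map_prod]
    refine Finset.prod_congr rfl fun σ _ => ?_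
    unfold lin
    rw [map_sum]
    refine Finset.sum_congr rfl fun j _ => ?_
    rw [map_mul, hmap, ← IsScalarTower.algebraMap_apply k K₁ (SL.Om k U)]
  refine hcore F κ htr (ext F I) (homog_ext hI) (fun i j => algebraMap k F (ℓ i j)) (hok F) s0
    (fun σ j => algebraMap (SL.Om k U) κ (X σ j)) hXI ?_ ⟨a, b, hab⟩ ?_
  · intro i
    rw [hu']
    intro h
    exact (hXU i).1 ((map_eq_zero _).1 h)
  · rw [hu']
    exact hrank

theorem main_of {k₀ : Type u} [Field k₀] [NumberField k₀] {N n r q : ℕ} (hn : 1 ≤ n) (hq0 : 0 < q)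
    (hcore : ∀ d, 1 ≤ d → d ≤ r → Core.{u} N n q d)
    (I : Set (MvPolynomial (Fin (N + 1)) k₀)) (hI : Homog I) (hD : Dim k₀ I n) :
    ∃ Φ : MvPolynomial (Fin q × Fin (N + 1)) k₀, Φ ≠ 0 ∧
      ∀ (k : Type u) [Field k] [NumberField k] [Algebra k₀ k] (ℓ : Fin q → Fin (N + 1) → k),
        aeval (fun p : Fin q × Fin (N + 1) => ℓ p.1 p.2) Φ ≠ 0 → ∀ S : Finset (Pl k), ∃ δ : ℝ, 0 < δ ∧ ∃ C : ℝ,
          ∀ y : Fin N → AlgebraicClosure k,
            (∀ f ∈ I, aeval (Fin.cons 1 y : Fin (N + 1) → AlgebraicClosure k) f = 0) → VZ.dg y ≤ r →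
            (∀ i, ∑ j, algebraMap k (VZ.fld y) (ℓ i j) * VZ.crd y j ≠ 0) →
            VZ.lam ℓ S y ≤ (q - δ) * VZ.hgt y + C := by
  classical
  choose Φ hΦ0 hΦ using fun d : ℕ => ok_phi (q := q) hn I hD d
  refine ⟨∏ d ∈ Finset.range (r + 1), Φ d, Finset.prod_ne_zero_iff.2 fun d _ => hΦ0 d, ?_⟩
  intro k _ _ _ ℓ hℓ S
  rw [map_prod, Finset.prod_ne_zero_iff] at hℓ
  have hdeg : ∀ d : ℕ, ∃ δ : ℝ, 0 < δ ∧ ∃ C : ℝ, 1 ≤ d → d ≤ r → ∀ y : Fin N → AlgebraicClosure k,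
      (∀ f ∈ I, aeval (Fin.cons 1 y : Fin (N + 1) → AlgebraicClosure k) f = 0) → VZ.dg y = d →
      (∀ i, ∑ j, algebraMap k (VZ.fld y) (ℓ i j) * VZ.crd y j ≠ 0) →
      VZ.lam ℓ S y ≤ (q - δ) * VZ.hgt y + C := by
    intro d
    by_cases hd : 1 ≤ d ∧ d ≤ r
    · obtain ⟨δ, hδ, C, h⟩ := main_deg hq0 d (hcore d hd.1 hd.2) I hI ℓ (by
        intro F _ _ _ _
        apply hΦ d F
        have h4 : aeval (fun p : Fin q × Fin (N + 1) => algebraMap k F (ℓ p.1 p.2)) (Φ d) =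
            algebraMap k F (aeval (fun p : Fin q × Fin (N + 1) => ℓ p.1 p.2) (Φ d)) :=
          aeval_algebraMap_apply F (fun p : Fin q × Fin (N + 1) => ℓ p.1 p.2) (Φ d)
        rw [h4]
        exact (map_ne_zero _).2 (hℓ d (Finset.mem_range.2 (by omega)))) S
      exact ⟨δ, hδ, C, fun _ _ => h⟩
    · exact ⟨1, one_pos, 0, fun h1 h2 => absurd ⟨h1, h2⟩ hd⟩
  choose δ hδ C hC using hdeg
  have hne : (Finset.range (r + 1)).Nonempty := ⟨0, Finset.mem_range.2 (by omega)⟩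
  refine ⟨(Finset.range (r + 1)).inf' hne δ, (Finset.lt_inf'_iff hne).2 fun d _ => hδ d,
    (Finset.range (r + 1)).sup' hne C, fun y hyI hyr hyD => ?_⟩
  have hmem : VZ.dg y ∈ Finset.range (r + 1) := Finset.mem_range.2 (by omega)
  have hfd : FiniteDimensional k (VZ.fld y) :=
    finiteDimensional_adjoin fun x _ => Algebra.IsIntegral.isIntegral x
  have hpos : 0 < VZ.dg y := Module.finrank_pos
  have h1 := hC (VZ.dg y) hpos hyr y hyI rfl hyD
  have h2 := Finset.inf'_le δ hmem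
  have h3 := Finset.le_sup' C hmem
  have h4 := hgt_nonneg y
  nlinarith

/-- The numerical conditions. -/
theorem numerics {n r q d : ℕ} (hn : 2 ≤ n) (hr : 2 ≤ r) (hq : 3 * r * n + 2 ≤ 2 * q) (hd : d ≤ r) :
    3 * d * n + 2 ≤ 2 * q ∧ 2 * n + (2 * d - 2) < q ∧ 4 * d + 4 * d * n + 3 * n ≤ 4 * q + 2 := by
  obtain ⟨a, rfl⟩ := Nat.exists_eq_add_of_le hr
  obtain ⟨b, rfl⟩ := Nat.exists_eq_add_of_le hn
  obtain ⟨e, he⟩ := Nat.exists_eq_add_of_le hd
  have h1 : 3 * (2 + a) * (2 + b) = 12 + 6 * a + 6 * b + 3 * (a * b) := by ring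
  have h2 : d * (2 + b) ≤ (2 + a) * (2 + b) := Nat.mul_le_mul_right _ hd
  have h3 : (2 + a) * (2 + b) = 4 + 2 * a + 2 * b + a * b := by ring
  have h4 : 3 * d * (2 + b) = 3 * (d * (2 + b)) := by ring
  have h5 : 4 * d * (2 + b) = 4 * (d * (2 + b)) := by ring
  rw [h1] at hq
  rw [h4, h5]
  rw [h3] at h2
  refine ⟨by omega, by omega, by omega⟩

end Pool.Agent.FIN
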