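import Pool.Agent.Helper64.FIN.Assembly
import Pool.Agent.Helper97.FIN.XMain

/-!
# FIN: the theorem, in affine coordinates
-/

set_option autoImplicit false

namespace Pool.Agent.FIN

open NumberField IntermediateField Pool.Agent.Helper64.Vojta Pool.Agent.GS MvPolynomial

universe u

theorem fin_main {k₀ : Type u} [Field k₀] [NumberField k₀] {N n r q : ℕ} (hn : 2 ≤ n) (hr : 2 ≤ r)
    (hq : 3 * r * n + 2 ≤ 2 * q) (I : Set (MvPolynomial (Fin (N + 1)) k₀)) (hI : Homog I) (hD : Dim k₀ I n) :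
    ∃ Φ : MvPolynomial (Fin q × Fin (N + 1)) k₀, Φ ≠ 0 ∧
      ∀ (k : Type u) [Field k] [NumberField k] [Algebra k₀ k] (ℓ : Fin q → Fin (N + 1) → k),
        aeval (fun p : Fin q × Fin (N + 1) => ℓ p.1 p.2) Φ ≠ 0 → ∀ S : Finset (Pl k), ∃ δ : ℝ, 0 < δ ∧ ∃ C : ℝ,
          ∀ y : Fin N → AlgebraicClosure k,
            (∀ f ∈ I, aeval (Fin.cons 1 y : Fin (N + 1) → AlgebraicClosure k) f = 0) → VZ.dg y ≤ r →
            (∀ i, ∑ j, algebraMap k (VZ.fld y) (ℓ i j) * VZ.crd y j ≠ 0) →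
            VZ.lam ℓ S y ≤ (q - δ) * VZ.hgt y + C := by
  have h0 := (numerics hn hr hq le_rfl).2.1
  refine main_of (r := r) (by omega) (by omega) (fun d hd1 hd => ?_) I hI hD
  obtain ⟨h1, h2, h3⟩ := numerics hn hr hq hd
  intro F κ _ _ _ _ htr I hI ℓ hℓ s0 y hX hu hy hrk
  exact coreX htr I hI h1 (by omega) h3 ℓ hℓ s0 y hX hu hy hrk

end Pool.Agent.FIN
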