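import Pool.Agent.Helper61.FIN.TwinXPhi
import Pool.Agent.Helper17.FIN.Three
import Pool.Agent.Helper16.FIN.LinePhi
import Pool.Agent.Helper61.GS.GP
import Pool.Agent.Helper36.GS.Glue

/-!
# FIN: the conditions on the linear forms, and one polynomial `Φ` for all of them
-/

set_option autoImplicit false

namespace Pool.Agent.FIN

open Pool.Agent.GS MvPolynomial

universe u

/-- The conditions on the linear forms. -/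
structure OkX {F : Type u} [Field F] {N q : ℕ} (I : Set (MvPolynomial (Fin (N + 1)) F)) (n r : ℕ)
    (ℓ : Fin q → Fin (N + 1) → F) : Prop where
  gp : GP F I ℓ n
  twin : ∀ (V G : Finset (Fin q)) (p : ℕ), 1 ≤ p → Disjoint V G → 2 * p * n + 2 ≤ 2 * G.card + V.card →
    ¬ TwinX I V G p ℓ
  line : 2 * n + (2 * r - 2) < q → ¬ Line I (2 * r - 2) ℓ
  three : ∀ ρ : Fin q → Fin q, 3 * n + 1 ≤ 2 * (q - (Finset.univ.image ρ).card) + 3 → ¬ Three I ρ ℓ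

/-- Finitely many conditions. -/
theorem prod_phi {k₀ : Type u} [Field k₀] {N q : ℕ} {ι : Type} [Finite ι]
    (C : ι → ∀ (K : Type u) [Field K] [Algebra k₀ K], (Fin q → Fin (N + 1) → K) → Prop)
    (h : ∀ i, ∃ Φ : MvPolynomial (Fin q × Fin (N + 1)) k₀, Φ ≠ 0 ∧ ∀ (K : Type u) [Field K] [Algebra k₀ K]
      (ℓ : Fin q → Fin (N + 1) → K), C i K ℓ → aeval (fun p : Fin q × Fin (N + 1) => ℓ p.1 p.2) Φ = 0) :
    ∃ Φ : MvPolynomial (Fin q × Fin (N + 1)) k₀, Φ ≠ 0 ∧ ∀ i (K : Type u) [Field K] [Algebra k₀ K]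
      (ℓ : Fin q → Fin (N + 1) → K), C i K ℓ → aeval (fun p : Fin q × Fin (N + 1) => ℓ p.1 p.2) Φ = 0 := by
  classical
  have := Fintype.ofFinite ι
  choose Φ hΦ0 hΦ using h
  refine ⟨∏ i, Φ i, Finset.prod_ne_zero_iff.2 fun i _ => hΦ0 i, fun i K _ _ ℓ hC => ?_⟩
  rw [map_prod]
  exact Finset.prod_eq_zero (Finset.mem_univ i) (hΦ i K ℓ hC)

theorem ok_phi {k₀ : Type u} [Field k₀] {N n q : ℕ} (hn : 1 ≤ n) (I : Set (MvPolynomial (Fin (N + 1)) k₀))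
    (hD : Dim k₀ I n) (r : ℕ) :
    ∃ Φ : MvPolynomial (Fin q × Fin (N + 1)) k₀, Φ ≠ 0 ∧ ∀ (F : Type u) [Field F] [Algebra k₀ F]
      (ℓ : Fin q → Fin (N + 1) → F), aeval (fun p : Fin q × Fin (N + 1) => ℓ p.1 p.2) Φ ≠ 0 →
      OkX (ext F I) n r ℓ := by
  classical
  obtain ⟨Φ₁, hΦ₁, h₁⟩ := gp_generic_ext (q := q) I hD
  obtain ⟨Φ₂, hΦ₂, h₂⟩ := prod_phi (k₀ := k₀) (N := N) (q := q)
    (ι := Finset (Fin q) × Finset (Fin q) × Fin (q + 1))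
    (fun i K _ _ ℓ => (1 ≤ (i.2.2 : ℕ) ∧ Disjoint i.1 i.2.1 ∧
      2 * (i.2.2 : ℕ) * n + 2 ≤ 2 * i.2.1.card + i.1.card) ∧ TwinX I i.1 i.2.1 i.2.2 ℓ) (by
    intro i
    by_cases hi : 1 ≤ (i.2.2 : ℕ) ∧ Disjoint i.1 i.2.1 ∧ 2 * (i.2.2 : ℕ) * n + 2 ≤ 2 * i.2.1.card + i.1.card
    · obtain ⟨Φ, h1, h2⟩ := twinx_phi I hD i.1 i.2.1 i.2.2 hi.1 hi.2.1 hi.2.2
      exact ⟨Φ, h1, fun K _ _ ℓ h => h2 K ℓ h.2⟩
    · exact ⟨1, one_ne_zero, fun K _ _ ℓ h => absurd h.1 hi⟩)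
  obtain ⟨Φ₃, hΦ₃, h₃⟩ := prod_phi (k₀ := k₀) (N := N) (q := q) (ι := Fin q → Fin q)
    (fun ρ K _ _ ℓ => 3 * n + 1 ≤ 2 * (q - (Finset.univ.image ρ).card) + 3 ∧ Three I ρ ℓ) (by
    intro ρ
    by_cases hρ : 3 * n + 1 ≤ 2 * (q - (Finset.univ.image ρ).card) + 3
    · obtain ⟨Φ, h1, h2⟩ := three_phi I hD ρ hρ
      exact ⟨Φ, h1, fun K _ _ ℓ h => h2 K ℓ h.2⟩
    · exact ⟨1, one_ne_zero, fun K _ _ ℓ h => absurd h.1 hρ⟩)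
  obtain ⟨Φ₄, hΦ₄, h₄⟩ := prod_phi (k₀ := k₀) (N := N) (q := q) (ι := Unit)
    (fun _ K _ _ ℓ => 2 * n + (2 * r - 2) < q ∧ Line I (2 * r - 2) ℓ) (by
    intro _
    by_cases h : 2 * n + (2 * r - 2) < q
    · obtain ⟨Φ, h1, h2⟩ := line_phi I hD (2 * r - 2) h
      exact ⟨Φ, h1, fun K _ _ ℓ h => h2 K ℓ h.2⟩
    · exact ⟨1, one_ne_zero, fun K _ _ ℓ h' => absurd h'.1 h⟩)
  refine ⟨Φ₁ * (Φ₂ * (Φ₃ * Φ₄)), mul_ne_zero hΦ₁ (mul_ne_zero hΦ₂ (mul_ne_zero hΦ₃ hΦ₄)), ?_⟩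
  intro F _ _ ℓ hℓ
  rw [map_mul, map_mul, map_mul, mul_ne_zero_iff, mul_ne_zero_iff, mul_ne_zero_iff] at hℓ
  obtain ⟨hℓ1, hℓ2, hℓ3, hℓ4⟩ := hℓ
  refine ⟨h₁ F ℓ hℓ1, ?_, ?_, ?_⟩
  · rintro V G p hp hVG hc ⟨y, z, c, hc0, hy, hz, h⟩
    have hpq : p < q + 1 := by
      have h1 : G.card ≤ q := by simpa using Finset.card_le_univ G
      have h2 : V.card ≤ q := by simpa using Finset.card_le_univ V
      have h3 : G.card + V.card ≤ q := by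
        rw [← Finset.card_union_of_disjoint hVG.symm]
        simpa using Finset.card_le_univ (G ∪ V)
      have h4 : 2 * p * 1 ≤ 2 * p * n := Nat.mul_le_mul_left _ hn
      omega
    exact hℓ2 (h₂ (V, G, ⟨p, hpq⟩) F ℓ ⟨⟨hp, hVG, hc⟩, y, z, c, hc0, fun a => (onX_ext I _).1 (hy a),
      fun b => (onX_ext I _).1 (hz b), h⟩)
  · rintro hc ⟨p, p', τ, h1, h2, h3, h4, h5⟩
    exact hℓ4 (h₄ () F ℓ ⟨hc, p, p', τ, h1, h2, (onX_ext I _).1 h3, (onX_ext I _).1 h4, h5⟩)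
  · rintro ρ hρ ⟨x, c, h1, h2, h3⟩
    exact hℓ3 (h₃ ρ F ℓ ⟨hρ, x, c, h1, fun a => (onX_ext I _).1 (h2 a), h3⟩)

end Pool.Agent.FIN
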