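import Pool.Agent.Helper97.FIN.Defs
import Pool.Agent.Helper97.GS.Special
import Pool.Agent.Helper97.GH.Elim
import Pool.Agent.Helper77.GS.Cl

/-!
# FIN, block G2: generic hyperplanes are not thin
-/

set_option autoImplicit false

namespace Pool.Agent.FIN

open Pool.Agent.GS MvPolynomial

universe u

/-- The coordinates on a space spanned by `e` vectors are combinations of `e` of them. -/
theorem coords {K : Type*} [Field K] {n e : ℕ} (he : e ≤ n + 1) (w : Fin e → Fin (n + 1) → K) :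
    ∃ (J : Finset (Fin (n + 1))) (β : Fin (n + 1) → Fin (n + 1) → K), J.card = e ∧
      ∀ l s, w s l = ∑ j ∈ J, β l j * w s j := by
  classical
  obtain ⟨ι, a, ha, hspan, hli⟩ := exists_linearIndependent' K fun (l : Fin (n + 1)) (s : Fin e) => w s l
  have : Finite ι := Finite.of_injective a ha
  have := Fintype.ofFinite ι
  have hcard : Fintype.card ι ≤ e := by
    have := hli.fintype_card_le_finrank
    simpa using this
  obtain ⟨J, hJ, hJc⟩ := Finset.exists_superset_card_eq (s := Finset.univ.image a)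
    (Finset.card_image_le.trans hcard) (by simpa using he)
  have hmem : ∀ l, (fun s => w s l) ∈ Submodule.span K ((fun (l : Fin (n + 1)) (s : Fin e) => w s l) '' (J : Set _)) := by
    intro l
    have h1 : (fun s => w s l) ∈ Submodule.span K (Set.range fun (l : Fin (n + 1)) (s : Fin e) => w s l) :=
      Submodule.subset_span ⟨l, rfl⟩
    rw [← hspan] at h1
    refine Submodule.span_mono ?_ h1
    rintro _ ⟨x, rfl⟩
    exact ⟨a x, hJ (Finset.mem_image_of_mem a (Finset.mem_univ x)), rfl⟩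
  have hβ : ∀ l, ∃ β : Fin (n + 1) → K, ∀ s, w s l = ∑ j ∈ J, β j * w s j := by
    intro l
    have h1 := hmem l
    rw [Submodule.mem_span_image_finset_iff_exists_fun] at h1
    obtain ⟨c, hc⟩ := h1
    refine ⟨fun j => if h : j ∈ J then c ⟨j, h⟩ else 0, fun s => ?_⟩
    have h2 := congrFun hc s
    rw [Finset.sum_apply] at h2
    rw [← h2, ← Finset.sum_coe_sort J]
    refine Finset.sum_congr rfl fun j _ => ?_
    simp only [dif_pos j.2]
    rfl
  choose β hβ using hβ
  exact ⟨J, β, hJc, hβ⟩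

theorem not_thin {K : Type} [Field K] {n q : ℕ} (ρ : Fin q → Fin q) (e : ℕ) (hρ : ∀ i, ρ (ρ i) = ρ i) (he : e < n)
    (h : e * (n + 1 - e) < (q - (Finset.univ.image ρ).card) * (n - e)) (a : Fin q × Fin (n + 1) → K)
    (ha : AlgebraicIndependent ℤ a) : ¬ Thin ρ e fun i j => a (i, j) := by
  classical
  rintro ⟨w, κ, μ, hw⟩
  simp only at hw
  have hinj : Function.Injective (algebraMap ℤ K) := ha.algebraMap_injective
  have : CharZero K := ⟨fun m m' hmm => by
    have h1 : algebraMap ℤ K m = algebraMap ℤ K m' := by simpa using hmm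
    exact_mod_cast hinj h1⟩
  let _ : Algebra ℚ K := DivisionRing.toRatAlgebra
  have : Algebra.IsAlgebraic ℤ ℚ := IsLocalization.isAlgebraic ℚ (nonZeroDivisors ℤ)
  have hai : AlgebraicIndependent ℚ a := ha.extendScalars ℚ
  obtain ⟨J, β, hJ, hβ⟩ := coords (by omega) w
  set R := Finset.univ.image ρ with hR
  have hcoord : ∀ i l, a (i, l) = κ i * a (ρ i, l) + ∑ j ∈ J, β l j * (a (i, j) - κ i * a (ρ i, j)) := by
    intro i l
    rw [hw i l]
    congr 1
    have h2 : ∀ j, a (i, j) - κ i * a (ρ i, j) = ∑ s, μ i s * w s j := by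
      intro j
      rw [hw i j]
      ring
    have h3 : ∑ j ∈ J, β l j * (a (i, j) - κ i * a (ρ i, j)) = ∑ j ∈ J, ∑ s, β l j * (μ i s * w s j) :=
      Finset.sum_congr rfl fun j _ => by rw [h2, Finset.mul_sum]
    rw [h3, Finset.sum_comm]
    refine Finset.sum_congr rfl fun s _ => ?_
    rw [hβ l s, Finset.mul_sum]
    exact Finset.sum_congr rfl fun j _ => by ring
  let X : Set K := ((fun p : Fin (n + 1) × Fin (n + 1) => β p.1 p.2) '' ((Jᶜ ×ˢ J : Finset _) : Set _)) ∪
    (κ '' ((Rᶜ : Finset _) : Set _))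
  have hX : rk ℚ X ≤ ((e * (n + 1 - e) + (q - R.card) : ℕ) : ℕ∞) := by
    refine ((AlgebraicIndependent.matroid ℚ K).eRk_union_le_eRk_add_eRk _ _).trans ?_
    rw [Nat.cast_add]
    refine add_le_add ((rk_image_le _ _).trans ?_) ((rk_image_le _ _).trans ?_)
    · rw [Finset.card_product, Finset.card_compl, hJ, Fintype.card_fin, mul_comm]
    · rw [Finset.card_compl, Fintype.card_fin]
  let D : Finset (Fin q × Fin (n + 1)) := Rᶜ ×ˢ Jᶜ
  have hD : D.card ≤ e * (n + 1 - e) + (q - R.card) := by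
    refine count97 a hai D X _ hX ?_
    rintro ⟨i, l⟩ hil
    rw [Finset.mem_product, Finset.mem_compl, Finset.mem_compl] at hil
    rw [hcoord i l]
    have hκ : κ i ∈ cl ℚ (a '' ((Dᶜ : Finset _) : Set _) ∪ X) :=
      subset_cl _ (Or.inr (Or.inr ⟨i, by simpa using hil.1, rfl⟩))
    have hρi : ∀ j, a (ρ i, j) ∈ cl ℚ (a '' ((Dᶜ : Finset _) : Set _) ∪ X) := by
      intro j
      refine subset_cl _ (Or.inl ⟨(ρ i, j), ?_, rfl⟩)
      rw [Finset.mem_coe, Finset.mem_compl, Finset.mem_product, not_and_or]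
      left
      rw [Finset.mem_compl, not_not, hR]
      exact Finset.mem_image_of_mem ρ (Finset.mem_univ i)
    refine cl_add (cl_mul hκ (hρi l)) (cl_sum _ _ fun j hj => cl_mul ?_ (cl_sub ?_ (cl_mul hκ (hρi j))))
    · refine subset_cl _ (Or.inr (Or.inl ⟨(l, j), ?_, rfl⟩))
      rw [Finset.mem_coe, Finset.mem_product, Finset.mem_compl]
      exact ⟨hil.2, hj⟩
    · refine subset_cl _ (Or.inl ⟨(i, j), ?_, rfl⟩)
      rw [Finset.mem_coe, Finset.mem_compl, Finset.mem_product, not_and_or]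
      right
      rw [Finset.mem_compl, not_not]
      exact hj
  have hDc : D.card = (q - R.card) * (n + 1 - e) := by
    rw [Finset.card_product, Finset.card_compl, Finset.card_compl, hJ, Fintype.card_fin, Fintype.card_fin]
  rw [hDc] at hD
  have h1 : n + 1 - e = (n - e) + 1 := by omega
  have h2 : (q - R.card) * (n + 1 - e) = (q - R.card) * (n - e) + (q - R.card) := by
    rw [h1, mul_add, mul_one]
  omega

/-- the equations of a thin system -/
def thinEqs {n q : ℕ} (ρ : Fin q → Fin q) (e : ℕ) :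
    Set (MvPolynomial ((Fin q × Fin (n + 1)) ⊕ ((Fin e × Fin (n + 1)) ⊕ (Fin q ⊕ (Fin q × Fin e)))) ℤ) :=
  {p | ∃ i j, p = X (Sum.inl (i, j)) - (X (Sum.inr (Sum.inr (Sum.inl i))) * X (Sum.inl (ρ i, j)) +
    ∑ s, X (Sum.inr (Sum.inr (Sum.inr (i, s)))) * X (Sum.inr (Sum.inl (s, j))))}

theorem thin_phi {n q : ℕ} (ρ : Fin q → Fin q) (e : ℕ) (hρ : ∀ i, ρ (ρ i) = ρ i) (he : e < n)
    (h : e * (n + 1 - e) < (q - (Finset.univ.image ρ).card) * (n - e)) :
    ∃ Φ : MvPolynomial (Fin q × Fin (n + 1)) ℤ, Φ ≠ 0 ∧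
      ∀ (K : Type u) [Field K] (ℓ : Fin q → Fin (n + 1) → K), Thin ρ e ℓ → aeval (fun p => ℓ p.1 p.2) Φ = 0 := by
  classical
  rcases Helper97.GH.elim (thinEqs (n := n) ρ e) with ⟨Φ, h0, hΦ⟩ | ⟨K, _, a, b, hab, ha⟩
  · refine ⟨Φ, h0, ?_⟩
    rintro K _ ℓ ⟨w, κ, μ, hw⟩
    refine Helper97.GH.elim_eval _ Φ hΦ _ (Sum.elim (fun p => w p.1 p.2) (Sum.elim κ fun p => μ p.1 p.2)) ?_
    rintro _ ⟨i, j, rfl⟩
    rw [map_sub, sub_eq_zero]
    simp only [map_add, map_sum, map_mul, aeval_X, Sum.elim_inl, Sum.elim_inr]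
    exact hw i j
  · exfalso
    refine not_thin ρ e hρ he h a ha ⟨fun s j => b (Sum.inl (s, j)), fun i => b (Sum.inr (Sum.inl i)),
      fun i s => b (Sum.inr (Sum.inr (i, s))), fun i j => ?_⟩
    have h1 := hab _ ⟨i, j, rfl⟩
    rw [map_sub, sub_eq_zero] at h1
    simpa only [map_add, map_sum, map_mul, aeval_X, Sum.elim_inl, Sum.elim_inr] using h1

end Pool.Agent.FIN
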